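import Pool.Agent.H8.ZA.Targets

open Polynomial
open Pool.Agent.H8.ZA

namespace Pool.Agent.H92.ZA

section
variable {L Ω Γ : Type} [Field L] [Field Ω] [Algebra (Polynomial L) Ω]
  [LinearOrderedCommGroupWithZero Γ] (w : Valuation Ω Γ)

theorem w_le (hW : 1 < w (algebraMap (Polynomial L) Ω Polynomial.X))
    (hw : ∀ a : Polynomial L, a ≠ 0 → w (algebraMap (Polynomial L) Ω a) =
      w (algebraMap (Polynomial L) Ω Polynomial.X) ^ a.natDegree)
    (a : Polynomial L) (n : ℕ) (h : a.natDegree ≤ n) :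
    w (algebraMap (Polynomial L) Ω a) ≤ w (algebraMap (Polynomial L) Ω Polynomial.X) ^ n := by
  rcases eq_or_ne a 0 with rfl | ha
  · simp
  · rw [hw a ha]
    exact pow_le_pow_right' hW.le h

theorem w_const' (hw : ∀ a : Polynomial L, a ≠ 0 → w (algebraMap (Polynomial L) Ω a) =
      w (algebraMap (Polynomial L) Ω Polynomial.X) ^ a.natDegree) (x : L) (hx : x ≠ 0) :
    w (algebraMap (Polynomial L) Ω (C x)) = 1 := by
  rw [hw (C x) (by simpa using hx)]
  simp

theorem w_const (hw : ∀ a : Polynomial L, a ≠ 0 → w (algebraMap (Polynomial L) Ω a) =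
      w (algebraMap (Polynomial L) Ω Polynomial.X) ^ a.natDegree) (x : L) :
    w (algebraMap (Polynomial L) Ω (C x)) ≤ 1 := by
  rcases eq_or_ne x 0 with rfl | hx
  · simp
  · rw [w_const' w hw x hx]

end

section
variable {L Ω Γ : Type} [Field L] [Field Ω]
  [LinearOrderedCommGroupWithZero Γ] (w : Valuation Ω Γ) (am : Polynomial L →+* Ω) (W : Γ)

theorem step1 (hSYM : T_SYM) (T : Polynomial (Polynomial L)) (κ : L) (d : ℕ)
    (wle : ∀ (a : Polynomial L) (n : ℕ), a.natDegree ≤ n → w (am a) ≤ W ^ n)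
    (wc' : ∀ x : L, x ≠ 0 → w (am (C x)) = 1)
    (hκ : κ ≠ 0)
    (hTc : ∀ j, (T.coeff j).natDegree ≤ d)
    (hprod : T.map am = C (am (C κ)) * ((T.map am).roots.map fun ξ => X - C ξ).prod) :
    ((T.map am).roots.map fun ξ => max 1 (w ξ)).prod ≤ W ^ d := by
  apply hSYM Ω Γ w (T.map am).roots (W ^ d)
  intro n
  have h2 : am (T.coeff n) = am (C κ) * (((T.map am).roots.map fun ξ => X - C ξ).prod).coeff n := by
    rw [← coeff_map]
    conv_lhs => rw [hprod]
    rw [coeff_C_mul]
  have h3 := wle (T.coeff n) d (hTc n)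
  rw [h2, map_mul, wc' κ hκ, one_mul] at h3
  exact h3

theorem hint [DecidableEq L] [DecidableEq Ω] (F : Polynomial Ω) (t : Finset L)
    (hFdeg : F.degree < (t.card : WithBot ℕ)) (φ : L →+* Ω) :
    F = ∑ i ∈ t, C (F.eval (φ i)) * (Lagrange.basis t (fun x => x) i).map φ := by
  have hφinj : Function.Injective φ := φ.injective
  have h7 := Lagrange.eq_interpolate (s := t) (v := fun x => φ x) (f := F)
    (fun x _ y _ h => hφinj h) hFdeg
  rw [Lagrange.interpolate_apply] at h7
  have hbasis : ∀ i, Lagrange.basis t (fun x => φ x) i =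
      (Lagrange.basis t (fun x => x) i).map φ := by
    intro i
    simp only [Lagrange.basis, Lagrange.basisDivisor, Polynomial.map_prod, Polynomial.map_mul,
      Polynomial.map_sub, map_C, map_X, map_inv₀, map_sub]
  simp only [← hbasis]
  exact h7

theorem coeffBound (F : Polynomial Ω) (t : Finset L) (g : Γ)
    (hFdeg : F.degree < (t.card : WithBot ℕ))
    (wc : ∀ x : L, w (am (C x)) ≤ 1)
    (hF : ∀ i ∈ t, w (F.eval (am (C i))) ≤ g) (n : ℕ) : w (F.coeff n) ≤ g := by
  classical
  have h1 := hint F t hFdeg (am.comp C)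
  rw [h1, finsetSum_coeff]
  apply Valuation.map_sum_le
  intro i hi
  rw [coeff_C_mul, map_mul, coeff_map]
  have h8 : w (F.eval ((am.comp C) i)) ≤ g := hF i hi
  have h9 : w ((am.comp C) ((Lagrange.basis t (fun x => x) i).coeff n)) ≤ 1 := wc _
  calc w (F.eval ((am.comp C) i)) * w ((am.comp C) ((Lagrange.basis t (fun x => x) i).coeff n))
      ≤ g * 1 := mul_le_mul' h8 h9
    _ = g := mul_one _

theorem evalEq (rts : Multiset Ω) (P : Polynomial (Polynomial L)) (c' : L) :
    w ((rts.map fun ξ => ((P - C (C c')).map am).eval ξ).prod) =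
    w ((((rts.map (fun ξ => (P.map am).eval ξ)).map fun η => X - C η).prod).eval (am (C c'))) := by
  rw [eval_multiset_prod, Multiset.map_map, map_multiset_prod, map_multiset_prod,
    Multiset.map_map, Multiset.map_map, Multiset.map_map]
  congr 1
  apply Multiset.map_congr rfl
  intro ξ _
  simp only [Function.comp, Polynomial.map_sub, eval_sub, map_C, eval_C, eval_X]
  rw [Valuation.map_sub_swap]

theorem sBound (P : Polynomial (Polynomial L)) (k D l : ℕ) (c : ℕ → ℕ → Polynomial L)
    (wle : ∀ (a : Polynomial L) (n : ℕ), a.natDegree ≤ n → w (am a) ≤ W ^ n)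
    (hc : ∀ a i, (c a i).natDegree ≤ l) (ξ : Ω) :
    w (((∑ a ∈ Finset.range (k + 1), ∑ i ∈ Finset.range D,
      P ^ a * Polynomial.X ^ i * Polynomial.C (c a i)).map am).eval ξ) ≤
      (max 1 (w ((P.map am).eval ξ))) ^ k * (max 1 (w ξ)) ^ D * W ^ l := by
  rw [Polynomial.map_sum, eval_finsetSum]
  apply Valuation.map_sum_le
  intro a ha
  rw [Polynomial.map_sum, eval_finsetSum]
  apply Valuation.map_sum_le
  intro i hi
  simp only [Polynomial.map_mul, Polynomial.map_pow, map_X, map_C, eval_mul, eval_pow, eval_X,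
    eval_C, map_mul, map_pow]
  have hak : a ≤ k := Nat.lt_succ_iff.mp (Finset.mem_range.mp ha)
  have hiD : i ≤ D := (Finset.mem_range.mp hi).le
  apply mul_le_mul'
  · apply mul_le_mul'
    · exact (pow_le_pow_left' (le_max_right 1 _) a).trans (pow_le_pow_right' (le_max_left _ _) hak)
    · exact (pow_le_pow_left' (le_max_right 1 _) i).trans (pow_le_pow_right' (le_max_left _ _) hiD)
  · exact wle _ l (hc a i)

theorem rBound (rts : Multiset Ω) (d M k D l : ℕ) (f PP : Ω → Ω) (hcard : Multiset.card rts = d)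
    (h1 : (rts.map fun ξ => max 1 (w ξ)).prod ≤ W ^ d)
    (h2 : (rts.map fun ξ => max 1 (w (PP ξ))).prod ≤ W ^ M)
    (hsξ : ∀ ξ, w (f ξ) ≤ (max 1 (w (PP ξ))) ^ k * (max 1 (w ξ)) ^ D * W ^ l) :
    w ((rts.map f).prod) ≤ W ^ (k * M + (D + l) * d) := by
  rw [map_multiset_prod, Multiset.map_map]
  calc (rts.map (⇑w ∘ f)).prod
      ≤ (rts.map fun ξ => (max 1 (w (PP ξ))) ^ k * (max 1 (w ξ)) ^ D * W ^ l).prod :=
        Multiset.prod_map_le_prod_map _ _ (fun ξ _ => hsξ ξ)
    _ = ((rts.map fun ξ => max 1 (w (PP ξ))).prod) ^ k * ((rts.map fun ξ => max 1 (w ξ)).prod) ^ D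
          * (W ^ l) ^ d := by
        rw [Multiset.prod_map_mul, Multiset.prod_map_mul, Multiset.prod_map_pow,
          Multiset.prod_map_pow, Multiset.map_const', Multiset.prod_replicate, hcard]
    _ ≤ (W ^ M) ^ k * (W ^ d) ^ D * (W ^ l) ^ d := by
        apply mul_le_mul' _ le_rfl
        exact mul_le_mul' (pow_le_pow_left' h2 k) (pow_le_pow_left' h1 D)
    _ = W ^ (k * M + (D + l) * d) := by
        rw [← pow_mul, ← pow_mul, ← pow_mul, ← pow_add, ← pow_add]
        congr 1
        ring

end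

theorem core (hNRM : T_NRM) (hSYM : T_SYM) {L Ω Γ : Type} [Field L] [Infinite L] [Field Ω]
    [IsAlgClosed Ω] [Algebra (Polynomial L) Ω]
    [LinearOrderedCommGroupWithZero Γ] (w : Valuation Ω Γ)
    (hinj : Function.Injective (algebraMap (Polynomial L) Ω))
    (hW : 1 < w (algebraMap (Polynomial L) Ω Polynomial.X))
    (hw : ∀ a : Polynomial L, a ≠ 0 → w (algebraMap (Polynomial L) Ω a) =
      w (algebraMap (Polynomial L) Ω Polynomial.X) ^ a.natDegree)
    (T P : Polynomial (Polynomial L)) (κ : L)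
    (d M k D l : ℕ) (c : ℕ → ℕ → Polynomial L) (hκ : κ ≠ 0) (hTd : T.natDegree = d)
    (hTl : T.leadingCoeff = Polynomial.C κ) (hTc : ∀ j, (T.coeff j).natDegree ≤ d)
    (hE : {c' : L | Module.finrank L (Polynomial (Polynomial L) ⧸
      Ideal.span {T, P - Polynomial.C (Polynomial.C c')}) ≤ M}.Infinite)
    (hc : ∀ a i, (c a i).natDegree ≤ l)
    (hfin : Module.Finite L (Polynomial (Polynomial L) ⧸ Ideal.span {T,
      ∑ a ∈ Finset.range (k + 1), ∑ i ∈ Finset.range D,
        P ^ a * Polynomial.X ^ i * Polynomial.C (c a i)})) :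
    Module.finrank L (Polynomial (Polynomial L) ⧸ Ideal.span {T,
      ∑ a ∈ Finset.range (k + 1), ∑ i ∈ Finset.range D,
        P ^ a * Polynomial.X ^ i * Polynomial.C (c a i)}) ≤ k * M + (D + l) * d := by
  have wle := fun a n h => w_le w hW hw a n h
  have wc := fun x => w_const w hw x
  have wc' := fun x hx => w_const' w hw x hx
  generalize hWd : w (algebraMap (Polynomial L) Ω Polynomial.X) = W at hW hw wle
  have hκ' : algebraMap (Polynomial L) Ω (C κ) ≠ 0 := by
    intro h
    apply hκ
    have := hinj (h.trans (map_zero (algebraMap (Polynomial L) Ω)).symm)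
    simpa using this
  have hlead : algebraMap (Polynomial L) Ω T.leadingCoeff ≠ 0 := by rw [hTl]; exact hκ'
  have hT'd : (T.map (algebraMap (Polynomial L) Ω)).natDegree = d := by
    rw [natDegree_map_of_leadingCoeff_ne_zero _ hlead, hTd]
  have hT'l : (T.map (algebraMap (Polynomial L) Ω)).leadingCoeff =
      algebraMap (Polynomial L) Ω (C κ) := by
    rw [leadingCoeff_map_of_leadingCoeff_ne_zero _ hlead, hTl]
  have hcard : Multiset.card (T.map (algebraMap (Polynomial L) Ω)).roots = d := by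
    rw [← hT'd]
    exact (IsAlgClosed.splits _).natDegree_eq_card_roots.symm
  have hprod : T.map (algebraMap (Polynomial L) Ω) = C (algebraMap (Polynomial L) Ω (C κ)) *
      ((T.map (algebraMap (Polynomial L) Ω)).roots.map fun ξ => X - C ξ).prod := by
    rw [← hT'l]
    exact (C_leadingCoeff_mul_prod_multiset_X_sub_C (by rw [hcard, hT'd])).symm
  have h1 := step1 w (algebraMap (Polynomial L) Ω) W hSYM T κ d wle wc' hκ hTc hprod
  obtain ⟨t, htE, htc⟩ := hE.exists_subset_card_eq (d + 1)
  have h2 : ((T.map (algebraMap (Polynomial L) Ω)).roots.map fun ξ =>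
      max 1 (w ((P.map (algebraMap (Polynomial L) Ω)).eval ξ))).prod ≤ W ^ M := by
    have hFdeg : ((((T.map (algebraMap (Polynomial L) Ω)).roots.map
        (fun ξ => (P.map (algebraMap (Polynomial L) Ω)).eval ξ)).map
        fun η => X - C η).prod).degree < (t.card : WithBot ℕ) := by
      rw [htc]
      have h5 : ((((T.map (algebraMap (Polynomial L) Ω)).roots.map
          (fun ξ => (P.map (algebraMap (Polynomial L) Ω)).eval ξ)).map
          fun η => X - C η).prod).natDegree = d := by
        rw [natDegree_multiset_prod_X_sub_C_eq_card]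
        simpa using hcard
      have h6 := degree_le_natDegree (p := ((((T.map (algebraMap (Polynomial L) Ω)).roots.map
        (fun ξ => (P.map (algebraMap (Polynomial L) Ω)).eval ξ)).map
        fun η => X - C η).prod))
      rw [h5] at h6
      refine lt_of_le_of_lt h6 ?_
      exact_mod_cast Nat.lt_succ_self d
    have h3 := coeffBound w (algebraMap (Polynomial L) Ω) _ t (W ^ M) hFdeg wc
      (fun c' hc' => by
        obtain ⟨r, hr1, -, hr3⟩ := hNRM L Ω hinj T (P - C (C c')) κ hκ hTl
        have h4 := evalEq w (algebraMap (Polynomial L) Ω)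
          (T.map (algebraMap (Polynomial L) Ω)).roots P c'
        rw [← h4, ← hr1]
        rcases eq_or_ne r 0 with h0 | h0
        · rw [h0]; simp
        · exact wle r M (by rw [← hr3 h0]; exact htE hc'))
    have h10 := hSYM Ω Γ w _ (W ^ M) h3
    rw [Multiset.map_map] at h10
    exact h10
  obtain ⟨r, hr1, hr2, hr3⟩ := hNRM L Ω hinj T _ κ hκ hTl
  have hr0 : r ≠ 0 := hr2 hfin
  rw [hr3 hr0]
  have hsξ := fun ξ => sBound w (algebraMap (Polynomial L) Ω) W P k D l c wle hc ξ
  have h11 : w (algebraMap (Polynomial L) Ω r) ≤ W ^ (k * M + (D + l) * d) := by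
    rw [hr1]
    exact rBound w W _ d M k D l _ _ hcard h1 h2 hsξ
  rw [hw r hr0] at h11
  exact (pow_le_pow_iff_right₀ hW).mp h11

theorem pf_UPR (hVAL : T_VAL) (hNRM : T_NRM) (hSYM : T_SYM) : T_UPR := by
  intro L _ _ T P κ d M k D l c hκ hTd hTl hTc hE hc hfin
  have hinj : Function.Injective (algebraMap (Polynomial L)
      (AlgebraicClosure (FractionRing (Polynomial L)))) := by
    rw [IsScalarTower.algebraMap_eq (Polynomial L) (FractionRing (Polynomial L))
      (AlgebraicClosure (FractionRing (Polynomial L)))]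
    exact (algebraMap (FractionRing (Polynomial L))
      (AlgebraicClosure (FractionRing (Polynomial L)))).injective.comp
      (IsFractionRing.injective (Polynomial L) (FractionRing (Polynomial L)))
  obtain ⟨Γ, _, w, hW, hw⟩ := hVAL L (AlgebraicClosure (FractionRing (Polynomial L))) hinj
  exact core hNRM hSYM w hinj hW hw T P κ d M k D l c hκ hTd hTl hTc hE hc hfin

end Pool.Agent.H92.ZA
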